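import Mathlib
import Pool.Agent.Lib_helper25.ET.Base

/-! Project ET (MP_861054_an): block IV, the box and the invariance of the Liouville measure. -/

set_option autoImplicit false

namespace Pool.Agent.ET

open MeasureTheory Filter Topology Set
open scoped ContDiff ENNReal

noncomputable section

variable {S : Torus}

/-- the basis of the plane given by the periods -/
def iv_b2 (S : Torus) : Module.Basis (Fin 2) ℝ ℂ :=
  basisOfLinearIndependentOfCardEqFinrank S.indep (by simp)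

/-- the basis `2π` of the line -/
def iv_b1 : Module.Basis Unit ℝ ℝ :=
  (Module.Basis.singleton Unit ℝ).unitsSMul
    (fun _ => Units.mk0 (2 * Real.pi) (by positivity))

/-- the basis of `ℂ × ℝ` that generates the lattice -/
def iv_b (S : Torus) : Module.Basis (Fin 2 ⊕ Unit) ℝ (ℂ × ℝ) := (iv_b2 S).prod iv_b1

theorem iv_b2_0 (S : Torus) : iv_b2 S 0 = S.w₁ := by simp [iv_b2]

theorem iv_b2_1 (S : Torus) : iv_b2 S 1 = S.w₂ := by simp [iv_b2]

theorem iv_b1_0 : iv_b1 () = 2 * Real.pi := by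
  simp [iv_b1, Module.Basis.unitsSMul_apply, Units.smul_def]

theorem iv_b_0 (S : Torus) : iv_b S (Sum.inl 0) = (S.w₁, 0) := by
  simp [iv_b, iv_b2_0]

theorem iv_b_1 (S : Torus) : iv_b S (Sum.inl 1) = (S.w₂, 0) := by
  simp [iv_b, iv_b2_1]

theorem iv_b_2 (S : Torus) : iv_b S (Sum.inr ()) = (0, 2 * Real.pi) := by
  simp [iv_b, iv_b1_0]

/-- the lattice -/
abbrev iv_L (S : Torus) : Submodule ℤ (ℂ × ℝ) := Submodule.span ℤ (Set.range (iv_b S))

theorem iv_sum (S : Torus) (x y z : ℝ) :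
    x • iv_b S (Sum.inl 0) + y • iv_b S (Sum.inl 1) + z • iv_b S (Sum.inr ()) =
      ((x : ℂ) * S.w₁ + (y : ℂ) * S.w₂, z * (2 * Real.pi)) := by
  rw [iv_b_0, iv_b_1, iv_b_2]
  simp

theorem iv_repr (S : Torus) (x y z : ℝ) (v : ℂ × ℝ)
    (hv : v = ((x : ℂ) * S.w₁ + (y : ℂ) * S.w₂, z * (2 * Real.pi))) :
    (iv_b S).repr v (Sum.inl 0) = x ∧ (iv_b S).repr v (Sum.inl 1) = y ∧
      (iv_b S).repr v (Sum.inr ()) = z := by
  rw [hv, ← iv_sum]
  simp

theorem iv_coord (S : Torus) (v : ℂ × ℝ) :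
    v = (((iv_b S).repr v (Sum.inl 0) : ℂ) * S.w₁ + ((iv_b S).repr v (Sum.inl 1) : ℂ) * S.w₂,
      (iv_b S).repr v (Sum.inr ()) * (2 * Real.pi)) := by
  conv_lhs => rw [← (iv_b S).sum_repr v]
  rw [Fintype.sum_sum_type]
  simp only [Fin.sum_univ_two, Finset.univ_unique, Finset.sum_singleton]
  exact iv_sum S _ _ _

theorem iv_box (S : Torus) : S.box = ZSpan.fundamentalDomain (iv_b S) := by
  have hpi : (0 : ℝ) < 2 * Real.pi := by positivity
  ext v
  simp only [Torus.box, ZSpan.mem_fundamentalDomain, mem_ofPred_eq]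
  constructor
  · rintro ⟨⟨x, hx, y, hy, h1⟩, h2⟩
    have h := iv_repr S x y (v.2 / (2 * Real.pi)) v (by
      rw [div_mul_cancel₀ _ hpi.ne', ← h1])
    rintro (i | i)
    · fin_cases i
      · exact h.1 ▸ hx
      · exact h.2.1 ▸ hy
    · rw [show (Sum.inr i : Fin 2 ⊕ Unit) = Sum.inr () from rfl, h.2.2]
      exact ⟨div_nonneg h2.1 hpi.le, (div_lt_one hpi).2 h2.2⟩
  · intro h
    have hc := iv_coord S v
    refine ⟨⟨_, h (Sum.inl 0), _, h (Sum.inl 1), congrArg Prod.fst hc⟩, ?_⟩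
    have h2 : v.2 = (iv_b S).repr v (Sum.inr ()) * (2 * Real.pi) := congrArg Prod.snd hc
    have h3 := h (Sum.inr ())
    rw [h2]
    exact ⟨mul_nonneg h3.1 hpi.le, by nlinarith [h3.2]⟩

theorem box_meas (S : Torus) : MeasurableSet S.box := by
  rw [iv_box]
  exact ZSpan.fundamentalDomain_measurableSet _

theorem iv_bounded (S : Torus) : Bornology.IsBounded S.box := by
  rw [iv_box]
  exact ZSpan.fundamentalDomain_isBounded _

theorem iv_dens_cont (S : Torus) :
    Continuous (fun v : ℂ × ℝ => ENNReal.ofReal (Real.exp (2 * S.u v.1))) := by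
  have h := S.smooth.continuous
  exact ENNReal.continuous_ofReal.comp (by fun_prop)

theorem iv_dens_meas (S : Torus) :
    Measurable (fun v : ℂ × ℝ => ENNReal.ofReal (Real.exp (2 * S.u v.1))) :=
  (iv_dens_cont S).measurable

theorem box_fin (S : Torus) : S.m S.box < ⊤ := by
  have hK : IsCompact (closure S.box) := (iv_bounded S).isCompact_closure
  have hc : Continuous (fun v : ℂ × ℝ => Real.exp (2 * S.u v.1)) := by
    have h := S.smooth.continuous
    fun_prop
  obtain ⟨C, hC⟩ := (hK.image hc).bddAbove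
  have hle : S.m S.box ≤ ENNReal.ofReal C * volume S.box := by
    rw [Torus.m, withDensity_apply _ (box_meas S), ← setLIntegral_const]
    refine setLIntegral_mono measurable_const fun v hv => ?_
    exact ENNReal.ofReal_le_ofReal (hC ⟨v, subset_closure hv, rfl⟩)
  refine hle.trans_lt (ENNReal.mul_lt_top ENNReal.ofReal_lt_top ?_)
  exact (iv_bounded S).measure_lt_top

theorem m_null (S : Torus) (A : Set (ℂ × ℝ)) : S.m A = 0 ↔ volume A = 0 := by
  rw [Torus.m, withDensity_apply_eq_zero (iv_dens_meas S)]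
  have h : {x : ℂ × ℝ | ENNReal.ofReal (Real.exp (2 * S.u x.1)) ≠ 0} ∩ A = A := by
    ext x
    simp [Real.exp_pos]
  rw [h]

/-- invariance under the lattice -/
theorem iv_inv (S : Torus) {α : Type*} {H : ℂ × ℝ → α} (hi : S.Inv H) {g : ℂ × ℝ}
    (hg : g ∈ iv_L S) (v : ℂ × ℝ) : H (g + v) = H v := by
  induction hg using Submodule.span_induction generalizing v with
  | mem x hx =>
    obtain ⟨i | i, rfl⟩ := hx
    · fin_cases i
      · have h := hi.inv₁ v
        have e : iv_b S (Sum.inl 0) + v = (v.1 + S.w₁, v.2) := by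
          rw [iv_b_0]; simp [Prod.ext_iff, add_comm]
        exact (congrArg H e).trans h
      · have h := hi.inv₂ v
        have e : iv_b S (Sum.inl 1) + v = (v.1 + S.w₂, v.2) := by
          rw [iv_b_1]; simp [Prod.ext_iff, add_comm]
        exact (congrArg H e).trans h
    · have h := hi.inv₃ v
      have e : iv_b S (Sum.inr ()) + v = (v.1, v.2 + 2 * Real.pi) := by
        rw [iv_b_2]; simp [Prod.ext_iff, add_comm]
      exact (congrArg H e).trans h
  | zero => rw [zero_add]
  | add x y _ _ hx hy => rw [add_assoc, hx, hy]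
  | smul a x _ hx =>
    have hn : ∀ (n : ℕ) (w : ℂ × ℝ), H ((n : ℤ) • x + w) = H w := by
      intro n
      induction n with
      | zero => intro w; simp
      | succ n ih =>
        intro w
        have e : (((n + 1 : ℕ) : ℤ) • x + w) = (n : ℤ) • x + (x + w) := by
          push_cast
          rw [add_smul, one_smul, add_assoc]
        rw [e, ih, hx]
    obtain ⟨n, rfl | rfl⟩ := a.eq_nat_or_neg
    · exact hn n v
    · have h := hn n (-(n : ℤ) • x + v)
      rw [← add_assoc, ← add_smul, add_neg_cancel, zero_smul, zero_add] at h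
      exact h.symm

theorem iv_vol_inv : (volume : Measure (ℂ × ℝ)).IsAddLeftInvariant := by
  rw [Measure.volume_eq_prod]
  infer_instance

theorem iv_fund (S : Torus) (μ : Measure (ℂ × ℝ)) :
    IsAddFundamentalDomain (iv_L S) S.box μ := by
  rw [iv_box]
  exact ZSpan.isAddFundamentalDomain (iv_b S) μ

theorem iv_vadd_inv (S : Torus) : VAddInvariantMeasure (iv_L S) (ℂ × ℝ) S.m := by
  constructor
  intro c s hs
  have hd : S.Inv (fun v : ℂ × ℝ => ENNReal.ofReal (Real.exp (2 * S.u v.1))) :=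
    ⟨fun v => by simp only [S.per₁], fun v => by simp only [S.per₂], fun v => rfl⟩
  have := iv_vol_inv
  have hmp : MeasurePreserving (fun x : ℂ × ℝ => (c : ℂ × ℝ) + x) volume volume :=
    measurePreserving_add_left volume _
  have hpre : (fun x : ℂ × ℝ => c +ᵥ x) ⁻¹' s = (fun x : ℂ × ℝ => (c : ℂ × ℝ) + x) ⁻¹' s := rfl
  rw [hpre, Torus.m, withDensity_apply _ (hmp.measurable hs), withDensity_apply _ hs,
    ← hmp.setLIntegral_comp_preimage hs (iv_dens_meas S)]
  refine setLIntegral_congr_fun (hmp.measurable hs) fun v _ => ?_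
  exact (iv_inv S hd c.2 v).symm

/-- an invariant set is null as soon as its part in the box is null -/
theorem box_null (S : Torus) (A : Set (ℂ × ℝ)) (hi : S.Inv (fun v => v ∈ A)) :
    volume A = 0 ↔ S.m (A ∩ S.box) = 0 := by
  constructor
  · intro h
    exact (m_null S _).2 (measure_mono_null inter_subset_left h)
  · intro h
    have h0 : volume (A ∩ S.box) = 0 := (m_null S _).1 h
    have := iv_vol_inv
    have : VAddInvariantMeasure (iv_L S) (ℂ × ℝ) volume :=
      ⟨fun c s _ => measure_preimage_add volume (c : ℂ × ℝ) s⟩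
    refine (iv_fund S volume).measure_zero_of_invariant A (fun g => ?_) h0
    ext v
    rw [mem_vadd_set_iff_neg_vadd_mem]
    have h2 := iv_inv S hi (-g).2 v
    exact iff_of_eq h2

/-- the reduction to the box -/
theorem exists_red (S : Torus) : ∃ r : ℂ × ℝ → ℂ × ℝ, Measurable r ∧ (∀ v, r v ∈ S.box) ∧
    (∀ v ∈ S.box, r v = v) ∧ S.Inv r ∧
    ∀ (α : Type) (H : ℂ × ℝ → α), S.Inv H → ∀ v, H (r v) = H v := by
  refine ⟨ZSpan.fract (iv_b S), ?_, ?_, ?_, ⟨?_, ?_, ?_⟩, ?_⟩
  · have hm : ∀ i, Measurable (fun v : ℂ × ℝ => (iv_b S).repr v i) := fun i => by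
      have : Continuous ((iv_b S).coord i) := LinearMap.continuous_of_finiteDimensional _
      exact this.measurable
    have h : ZSpan.fract (iv_b S) =
        fun v : ℂ × ℝ => (((Int.fract ((iv_b S).repr v (Sum.inl 0)) : ℝ) : ℂ) * S.w₁ +
          ((Int.fract ((iv_b S).repr v (Sum.inl 1)) : ℝ) : ℂ) * S.w₂,
          Int.fract ((iv_b S).repr v (Sum.inr ())) * (2 * Real.pi)) := by
      funext v
      have h := iv_coord S (ZSpan.fract (iv_b S) v)
      rw [ZSpan.repr_fract_apply, ZSpan.repr_fract_apply, ZSpan.repr_fract_apply] at h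
      exact h
    rw [h]
    have h0 := (hm (Sum.inl 0)).fract
    have h1 := (hm (Sum.inl 1)).fract
    have h2 := (hm (Sum.inr ())).fract
    exact Measurable.prodMk
      (((Complex.measurable_ofReal.comp h0).mul_const _).add
        ((Complex.measurable_ofReal.comp h1).mul_const _)) (h2.mul_const _)
  · intro v
    rw [iv_box]
    exact ZSpan.fract_mem_fundamentalDomain _ v
  · intro v hv
    rw [iv_box] at hv
    exact ZSpan.fract_eq_self.2 hv
  · intro v
    have e : (v.1 + S.w₁, v.2) = iv_b S (Sum.inl 0) + v := by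
      rw [iv_b_0]; simp [Prod.ext_iff, add_comm]
    rw [e]
    exact ZSpan.fract_zSpan_add _ v (Submodule.subset_span ⟨_, rfl⟩)
  · intro v
    have e : (v.1 + S.w₂, v.2) = iv_b S (Sum.inl 1) + v := by
      rw [iv_b_1]; simp [Prod.ext_iff, add_comm]
    rw [e]
    exact ZSpan.fract_zSpan_add _ v (Submodule.subset_span ⟨_, rfl⟩)
  · intro v
    have e : (v.1, v.2 + 2 * Real.pi) = iv_b S (Sum.inr ()) + v := by
      rw [iv_b_2]; simp [Prod.ext_iff, add_comm]
    rw [e]
    exact ZSpan.fract_zSpan_add _ v (Submodule.subset_span ⟨_, rfl⟩)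
  · intro α H hi v
    have h := iv_inv S hi (ZSpan.floor (iv_b S) v).2 (ZSpan.fract (iv_b S) v)
    rw [ZSpan.fract_apply, add_sub_cancel] at h
    rw [ZSpan.fract_apply]
    exact h.symm

/-- invariance of the Liouville measure of the torus -/
theorem lint_inv (Φ : Flow S) (t : ℝ) (H : ℂ × ℝ → ℝ≥0∞) (hH : Measurable H) (hi : S.Inv H) :
    ∫⁻ v in S.box, H (Φ.φ t v) ∂S.m = ∫⁻ v in S.box, H v ∂S.m := by
  have := iv_vadd_inv S
  have hs : MeasurableSet (Φ.φ (-t) ⁻¹' S.box) := (Φ.mp (-t)).measurable (box_meas S)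
  have hfl : ∀ (g : iv_L S) (s : ℝ) (v : ℂ × ℝ),
      Φ.φ s ((g : ℂ × ℝ) + v) = (g : ℂ × ℝ) + Φ.φ s v := by
    intro g s v
    have hi' : S.Inv (fun v => Φ.φ s v - v) :=
      ⟨fun v => by rw [Φ.per₁]; simp [Prod.ext_iff], fun v => by rw [Φ.per₂]; simp [Prod.ext_iff],
        fun v => by rw [Φ.per₃]; simp [Prod.ext_iff]⟩
    have h := iv_inv S hi' g.2 v
    have h2 : Φ.φ s ((g : ℂ × ℝ) + v) = (Φ.φ s v - v) + ((g : ℂ × ℝ) + v) :=
      sub_eq_iff_eq_add.1 h
    rw [h2]
    abel
  have hfd : IsAddFundamentalDomain (iv_L S) (Φ.φ (-t) ⁻¹' S.box) S.m := by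
    refine (iv_fund S S.m).preimage_of_equiv (Φ.mp (-t)).quasiMeasurePreserving
      (e := id) Function.bijective_id fun g v => ?_
    exact hfl g (-t) v
  have hpre : Φ.φ t ⁻¹' (Φ.φ (-t) ⁻¹' S.box) = S.box := by
    ext v
    simp only [mem_preimage]
    rw [← Φ.add, neg_add_cancel, Φ.zero]
  calc ∫⁻ v in S.box, H (Φ.φ t v) ∂S.m
      = ∫⁻ v in Φ.φ t ⁻¹' (Φ.φ (-t) ⁻¹' S.box), H (Φ.φ t v) ∂S.m := by rw [hpre]
    _ = ∫⁻ v in Φ.φ (-t) ⁻¹' S.box, H v ∂S.m :=
        (Φ.mp t).setLIntegral_comp_preimage hs hH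
    _ = ∫⁻ v in S.box, H v ∂S.m :=
        hfd.setLIntegral_eq (iv_fund S S.m) H fun g v => iv_inv S hi g.2 v

end

end Pool.Agent.ET
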